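import Pool.Agent.Helper5.Iso.Defs

/-!
# Jensen type inequalities for power series with coefficients in `{-1, 0, 1}`

Blaschke division on coefficient sequences: for a bounded sequence `a` with `f_a(z) = 0` put
`g n = ∑_{k ≤ n} a k z^(k-n)`, so that `f_a(x) = (1 - x/z) G(x)`, and
`T a = (1 - z x / q) G(x)` with `q = 3/4`.  Then `∑ (T a)_n² q^n = (z²/q) ∑ a_n² q^n`.
-/

namespace Pool.Agent.Iso

/-- bounded coefficient sequence -/
def BdSeq (a : ℕ → ℝ) : Prop := ∃ M : ℝ, ∀ n, |a n| ≤ M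

/-- quotient sequence -/
noncomputable def gq (a : ℕ → ℝ) (z : ℝ) (n : ℕ) : ℝ :=
  (∑ k ∈ Finset.range (n + 1), a k * z ^ k) / z ^ n

/-- Blaschke division -/
noncomputable def Tq (a : ℕ → ℝ) (z : ℝ) : ℕ → ℝ
  | 0 => a 0
  | (n + 1) => gq a z (n + 1) - z / (3 / 4) * gq a z n

/-- weighted norm -/
noncomputable def nq (a : ℕ → ℝ) : ℝ := ∑' n, a n ^ 2 * (3 / 4 : ℝ) ^ n

theorem BdSeq.summable {a : ℕ → ℝ} (ha : BdSeq a) {x : ℝ} (hx : |x| < 1) :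
    Summable (fun n => a n * x ^ n) := by
  obtain ⟨M, hM⟩ := ha
  refine Summable.of_norm_bounded (g := fun n => M * |x| ^ n)
    ((summable_geometric_of_lt_one (abs_nonneg x) hx).mul_left M) ?_
  intro n
  rw [Real.norm_eq_abs, abs_mul, abs_pow]
  exact mul_le_mul_of_nonneg_right (hM n) (pow_nonneg (abs_nonneg x) n)

theorem BdSeq.summable_dv {a : ℕ → ℝ} (ha : BdSeq a) {x : ℝ} (hx : |x| < 1) :
    Summable (fun n : ℕ => (n : ℝ) * a n * x ^ n) := by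
  obtain ⟨M, hM⟩ := ha
  have hs : Summable (fun n : ℕ => (n : ℝ) ^ 1 * |x| ^ n) :=
    summable_pow_mul_geometric_of_norm_lt_one 1 (by rw [Real.norm_eq_abs, abs_abs]; exact hx)
  refine Summable.of_norm_bounded (g := fun n : ℕ => M * ((n : ℝ) ^ 1 * |x| ^ n))
    (hs.mul_left M) ?_
  intro n
  rw [Real.norm_eq_abs, abs_mul, abs_mul, abs_pow, Nat.abs_cast, pow_one]
  have h1 : (n : ℝ) * |a n| ≤ n * M := mul_le_mul_of_nonneg_left (hM n) (Nat.cast_nonneg n)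
  calc (n : ℝ) * |a n| * |x| ^ n ≤ n * M * |x| ^ n :=
        mul_le_mul_of_nonneg_right h1 (pow_nonneg (abs_nonneg x) n)
    _ = M * (n * |x| ^ n) := by ring

theorem BdSeq.summable_prod {a b : ℕ → ℝ} (ha : BdSeq a) (hb : BdSeq b) :
    Summable (fun n => a n * b n * (3 / 4 : ℝ) ^ n) := by
  obtain ⟨M, hM⟩ := ha
  obtain ⟨M', hM'⟩ := hb
  have h : BdSeq (fun n => a n * b n) := ⟨M * M', fun n => by
    rw [abs_mul]
    exact mul_le_mul (hM n) (hM' n) (abs_nonneg _) ((abs_nonneg _).trans (hM n))⟩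
  exact h.summable (by norm_num [abs_of_pos])

theorem BdSeq.shift {a : ℕ → ℝ} (ha : BdSeq a) : BdSeq (fun n => a (n + 1)) := by
  obtain ⟨M, hM⟩ := ha
  exact ⟨M, fun n => hM (n + 1)⟩

theorem gq_zero (a : ℕ → ℝ) (z : ℝ) : gq a z 0 = a 0 := by
  simp [gq]

theorem gq_succ (a : ℕ → ℝ) {z : ℝ} (hz : z ≠ 0) (n : ℕ) :
    a (n + 1) = gq a z (n + 1) - gq a z n / z := by
  unfold gq
  rw [Finset.sum_range_succ _ (n + 1)]
  field_simp
  ring

theorem gq_bd {a : ℕ → ℝ} (ha : BdSeq a) {z : ℝ} (hz : z ≠ 0) (hz1 : |z| < 1)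
    (h0 : ev a z = 0) : BdSeq (gq a z) := by
  have hs := ha.summable hz1
  obtain ⟨M, hM⟩ := ha
  have hz0 : 0 < |z| := abs_pos.mpr hz
  have hM0 : 0 ≤ M := (abs_nonneg _).trans (hM 0)
  refine ⟨M * |z| / (1 - |z|), fun n => ?_⟩
  have h1 := hs.sum_add_tsum_nat_add (n + 1)
  have h2 : (∑ k ∈ Finset.range (n + 1), a k * z ^ k)
      = - ∑' k : ℕ, a (k + (n + 1)) * z ^ (k + (n + 1)) := by
    have h3 : (∑' n : ℕ, a n * z ^ n) = 0 := h0
    linarith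
  unfold gq
  rw [h2, abs_div, abs_neg, abs_pow, div_le_iff₀ (pow_pos hz0 n)]
  have hg := summable_geometric_of_lt_one (abs_nonneg z) hz1
  have h4 : ‖∑' k : ℕ, a (k + (n + 1)) * z ^ (k + (n + 1))‖
      ≤ ∑' k : ℕ, M * |z| ^ (n + 1) * |z| ^ k := by
    refine tsum_of_norm_bounded (hg.mul_left _).hasSum ?_
    intro k
    rw [Real.norm_eq_abs, abs_mul, abs_pow]
    calc |a (k + (n + 1))| * |z| ^ (k + (n + 1)) ≤ M * |z| ^ (k + (n + 1)) :=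
          mul_le_mul_of_nonneg_right (hM _) (pow_nonneg (abs_nonneg z) _)
      _ = M * |z| ^ (n + 1) * |z| ^ k := by rw [pow_add]; ring
  rw [Real.norm_eq_abs, tsum_mul_left, tsum_geometric_of_lt_one (abs_nonneg z) hz1] at h4
  refine h4.trans (le_of_eq ?_)
  rw [pow_succ]
  field_simp

theorem Tq_bd {a : ℕ → ℝ} (ha : BdSeq a) {z : ℝ} (hz : z ≠ 0) (hz1 : |z| < 1)
    (h0 : ev a z = 0) : BdSeq (Tq a z) := by
  obtain ⟨M, hM⟩ := gq_bd ha hz hz1 h0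
  have hM0 : 0 ≤ M := (abs_nonneg _).trans (hM 0)
  refine ⟨M + |z / (3 / 4)| * M, fun n => ?_⟩
  have hzz : 0 ≤ |z / (3 / 4)| := abs_nonneg _
  cases n with
  | zero =>
    show |a 0| ≤ _
    rw [← gq_zero a z]
    have := hM 0
    nlinarith
  | succ n =>
    show |gq a z (n + 1) - z / (3 / 4) * gq a z n| ≤ _
    calc |gq a z (n + 1) - z / (3 / 4) * gq a z n|
        ≤ |gq a z (n + 1)| + |z / (3 / 4) * gq a z n| := abs_sub _ _
      _ ≤ M + |z / (3 / 4)| * M := by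
        rw [abs_mul]
        exact add_le_add (hM _) (mul_le_mul_of_nonneg_left (hM _) hzz)

/-- splitting off the first term of `ev` for `b 0 = g 0`, `b (n+1) = g (n+1) - c g n`. -/
theorem ev_of_rec {b g : ℕ → ℝ} (hg : BdSeq g) {c x : ℝ} (hx : |x| < 1) (h0 : b 0 = g 0)
    (h1 : ∀ n, b (n + 1) = g (n + 1) - c * g n) : ev b x = (1 - c * x) * ev g x := by
  have hs := hg.summable hx
  have hs1 : Summable (fun n => g (n + 1) * x ^ (n + 1)) := (summable_nat_add_iff 1).mpr hs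
  have hb1 : Summable (fun n => b (n + 1) * x ^ (n + 1)) := by
    have : (fun n => b (n + 1) * x ^ (n + 1))
        = fun n => g (n + 1) * x ^ (n + 1) - c * x * (g n * x ^ n) := by
      funext n
      rw [h1, pow_succ]
      ring
    rw [this]
    exact hs1.sub (hs.mul_left _)
  have hb : Summable (fun n => b n * x ^ n) := (summable_nat_add_iff 1).mp hb1
  unfold ev
  rw [hb.tsum_eq_zero_add]
  have e1 : (∑' n : ℕ, b (n + 1) * x ^ (n + 1))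
      = (∑' n : ℕ, g (n + 1) * x ^ (n + 1)) - c * x * ∑' n : ℕ, g n * x ^ n := by
    rw [← tsum_mul_left, ← hs1.tsum_sub (hs.mul_left _)]
    refine tsum_congr fun n => ?_
    rw [h1, pow_succ]
    ring
  rw [e1, hs.tsum_eq_zero_add, h0]
  ring

theorem dv_of_rec {b g : ℕ → ℝ} (hg : BdSeq g) {c x : ℝ} (hx : |x| < 1) 
    (h1 : ∀ n, b (n + 1) = g (n + 1) - c * g n) :
    dv b x = (1 - c * x) * dv g x - c * x * ev g x := by
  have hs := hg.summable hx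
  have hd := hg.summable_dv hx
  have hd1 : Summable (fun n : ℕ => ((n + 1 : ℕ) : ℝ) * g (n + 1) * x ^ (n + 1)) :=
    (summable_nat_add_iff (f := fun n : ℕ => (n : ℝ) * g n * x ^ n) 1).mpr hd
  have key : ∀ n : ℕ, ((n + 1 : ℕ) : ℝ) * b (n + 1) * x ^ (n + 1)
      = ((n + 1 : ℕ) : ℝ) * g (n + 1) * x ^ (n + 1)
        - (c * x * ((n : ℝ) * g n * x ^ n) + c * x * (g n * x ^ n)) := by
    intro n
    rw [h1, pow_succ]
    push_cast
    ring
  have hb1 : Summable (fun n : ℕ => ((n + 1 : ℕ) : ℝ) * b (n + 1) * x ^ (n + 1)) := by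
    rw [show (fun n : ℕ => ((n + 1 : ℕ) : ℝ) * b (n + 1) * x ^ (n + 1)) = _ from funext key]
    exact hd1.sub ((hd.mul_left _).add (hs.mul_left _))
  have hb : Summable (fun n : ℕ => (n : ℝ) * b n * x ^ n) :=
    (summable_nat_add_iff (f := fun n : ℕ => (n : ℝ) * b n * x ^ n) 1).mp hb1
  unfold dv ev
  rw [hb.tsum_eq_zero_add]
  have e1 : (∑' n : ℕ, ((n + 1 : ℕ) : ℝ) * b (n + 1) * x ^ (n + 1))
      = (∑' n : ℕ, ((n + 1 : ℕ) : ℝ) * g (n + 1) * x ^ (n + 1))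
        - (c * x * (∑' n : ℕ, (n : ℝ) * g n * x ^ n) + c * x * ∑' n : ℕ, g n * x ^ n) := by
    rw [tsum_congr key, hd1.tsum_sub ((hd.mul_left _).add (hs.mul_left _)),
      (hd.mul_left _).tsum_add (hs.mul_left _), tsum_mul_left, tsum_mul_left]
  rw [e1]
  have e2 := hd.tsum_eq_zero_add
  have e3 : (∑' n : ℕ, ((n + 1 : ℕ) : ℝ) * g (n + 1) * x ^ (n + 1))
      = ∑' n : ℕ, (n : ℝ) * g n * x ^ n := by
    rw [e2]
    simp
  rw [e3]
  simp
  ring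

theorem nq_of_rec {b g : ℕ → ℝ} (hg : BdSeq g) {c : ℝ} (h0 : b 0 = g 0)
    (h1 : ∀ n, b (n + 1) = g (n + 1) - c * g n) :
    nq b = (1 + c ^ 2 * (3 / 4)) * nq g
      - 2 * c * ∑' n : ℕ, g (n + 1) * g n * (3 / 4 : ℝ) ^ (n + 1) := by
  have hs : Summable (fun n => g n ^ 2 * (3 / 4 : ℝ) ^ n) := by
    have := hg.summable_prod hg
    refine this.congr fun n => ?_
    ring
  have hs1 : Summable (fun n => g (n + 1) ^ 2 * (3 / 4 : ℝ) ^ (n + 1)) :=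
    (summable_nat_add_iff (f := fun n => g n ^ 2 * (3 / 4 : ℝ) ^ n) 1).mpr hs
  have hp : Summable (fun n => g (n + 1) * g n * (3 / 4 : ℝ) ^ (n + 1)) := by
    have := (hg.shift.summable_prod hg).mul_left (3 / 4)
    refine this.congr fun n => ?_
    rw [pow_succ]
    ring
  have key : ∀ n : ℕ, b (n + 1) ^ 2 * (3 / 4 : ℝ) ^ (n + 1)
      = g (n + 1) ^ 2 * (3 / 4 : ℝ) ^ (n + 1)
        - (2 * c * (g (n + 1) * g n * (3 / 4 : ℝ) ^ (n + 1))
          - c ^ 2 * (3 / 4) * (g n ^ 2 * (3 / 4 : ℝ) ^ n)) := by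
    intro n
    rw [h1, pow_succ]
    ring
  have hb1 : Summable (fun n : ℕ => b (n + 1) ^ 2 * (3 / 4 : ℝ) ^ (n + 1)) := by
    rw [show (fun n : ℕ => b (n + 1) ^ 2 * (3 / 4 : ℝ) ^ (n + 1)) = _ from funext key]
    exact hs1.sub ((hp.mul_left _).sub (hs.mul_left _))
  have hb : Summable (fun n : ℕ => b n ^ 2 * (3 / 4 : ℝ) ^ n) :=
    (summable_nat_add_iff (f := fun n : ℕ => b n ^ 2 * (3 / 4 : ℝ) ^ n) 1).mp hb1
  unfold nq
  rw [hb.tsum_eq_zero_add, tsum_congr key, hs1.tsum_sub ((hp.mul_left _).sub (hs.mul_left _)),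
    (hp.mul_left _).tsum_sub (hs.mul_left _), tsum_mul_left, tsum_mul_left,
    hs.tsum_eq_zero_add, h0]
  ring

/-- the basic norm identity -/
theorem nq_Tq {a : ℕ → ℝ} (ha : BdSeq a) {z : ℝ} (hz : z ≠ 0) (hz1 : |z| < 1)
    (h0 : ev a z = 0) : nq (Tq a z) = z ^ 2 / (3 / 4) * nq a := by
  have hg := gq_bd ha hz hz1 h0
  have e1 := nq_of_rec (b := a) (c := 1 / z) hg (gq_zero a z).symm
    (fun n => by rw [gq_succ a hz n]; ring)
  have e2 := nq_of_rec (b := Tq a z) (c := z / (3 / 4)) hg (gq_zero a z).symm (fun n => rfl)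
  rw [e1, e2]
  field_simp
  ring

theorem ev_Tq {a : ℕ → ℝ} (ha : BdSeq a) {z : ℝ} (hz : z ≠ 0) (hz1 : |z| < 1)
    (h0 : ev a z = 0) {x : ℝ} (hx : |x| < 1) (hxz : x ≠ z) (h1 : ev a x = 0) :
    ev (Tq a z) x = 0 := by
  have hg := gq_bd ha hz hz1 h0
  have e1 := ev_of_rec (b := a) (c := 1 / z) hg hx (gq_zero a z).symm
    (fun n => by rw [gq_succ a hz n]; ring)
  have e2 := ev_of_rec (b := Tq a z) (c := z / (3 / 4)) hg hx (gq_zero a z).symm (fun n => rfl)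
  have h3 : ev (gq a z) x = 0 := by
    rw [h1] at e1
    rcases mul_eq_zero.mp e1.symm with h | h
    · exfalso
      apply hxz
      field_simp at h
      linarith
    · exact h
  rw [e2, h3, mul_zero]

theorem dv_Tq {a : ℕ → ℝ} (ha : BdSeq a) {z : ℝ} (hz : z ≠ 0) (hz1 : |z| < 1)
    (h0 : ev a z = 0) {x : ℝ} (hx : |x| < 1) (hxz : x ≠ z) (h1 : ev a x = 0)
    (h2 : dv a x = 0) : dv (Tq a z) x = 0 := by
  have hg := gq_bd ha hz hz1 h0
  have e1 := ev_of_rec (b := a) (c := 1 / z) hg hx (gq_zero a z).symm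
    (fun n => by rw [gq_succ a hz n]; ring)
  have hne : 1 - 1 / z * x ≠ 0 := by
    intro h
    apply hxz
    field_simp at h
    linarith
  have h3 : ev (gq a z) x = 0 := by
    rw [h1] at e1
    exact (mul_eq_zero.mp e1.symm).resolve_left hne
  have e2 := dv_of_rec (b := a) (c := 1 / z) hg hx
    (fun n => by rw [gq_succ a hz n]; ring)
  have e3 := dv_of_rec (b := Tq a z) (c := z / (3 / 4)) hg hx (fun n => rfl)
  rw [h2, h3, mul_zero, sub_zero] at e2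
  have h4 : dv (gq a z) x = 0 := (mul_eq_zero.mp e2.symm).resolve_left hne
  rw [e3, h3, h4]
  ring

/-- a double zero remains a zero -/
theorem ev_Tq_self {a : ℕ → ℝ} (ha : BdSeq a) {z : ℝ} (hz : z ≠ 0) (hz1 : |z| < 1)
    (h0 : ev a z = 0) (h2 : dv a z = 0) : ev (Tq a z) z = 0 := by
  have hg := gq_bd ha hz hz1 h0
  have e2 := dv_of_rec (b := a) (c := 1 / z) hg hz1
    (fun n => by rw [gq_succ a hz n]; ring)
  have e3 := ev_of_rec (b := Tq a z) (c := z / (3 / 4)) hg hz1 (gq_zero a z).symm (fun n => rfl)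
  have h3 : ev (gq a z) z = 0 := by
    rw [h2] at e2
    field_simp at e2
    linarith
  rw [e3, h3, mul_zero]

theorem one_le_nq {a : ℕ → ℝ} (ha : BdSeq a) (h0 : a 0 = 1) : 1 ≤ nq a := by
  have hs : Summable (fun n => a n ^ 2 * (3 / 4 : ℝ) ^ n) := by
    have := ha.summable_prod ha
    refine this.congr fun n => ?_
    ring
  have h := hs.sum_le_tsum (Finset.range 1) (fun n _ => by positivity)
  simpa [nq, h0] using h

theorem nq_le_four {a : ℕ → ℝ} (ha : IsB a) : nq a ≤ 4 := by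
  have hb : BdSeq a := ⟨1, ha.abs_le⟩
  have hs : Summable (fun n => a n ^ 2 * (3 / 4 : ℝ) ^ n) := by
    have := hb.summable_prod hb
    refine this.congr fun n => ?_
    ring
  have hg : Summable (fun n : ℕ => (3 / 4 : ℝ) ^ n) :=
    summable_geometric_of_lt_one (by norm_num) (by norm_num)
  have h1 : nq a ≤ ∑' n : ℕ, (3 / 4 : ℝ) ^ n := by
    refine hs.tsum_le_tsum (fun n => ?_) hg
    have h2 : a n ^ 2 ≤ 1 := by
      rw [← sq_abs]
      have := ha.abs_le n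
      nlinarith [abs_nonneg (a n)]
    have h3 : (0 : ℝ) ≤ (3 / 4 : ℝ) ^ n := by positivity
    nlinarith
  rw [tsum_geometric_of_lt_one (by norm_num) (by norm_num)] at h1
  norm_num at h1
  exact h1

/-- BLOCK 3 (Jensen type inequality, three zeros). -/
theorem jensen3 {a : ℕ → ℝ} (ha : IsB a) {γ μ : ℝ} (hγ0 : 0 < γ) (hγ1 : γ < 1)
    (hμ0 : 0 < μ) (hμ1 : μ < 1)
    (h1 : ev a γ = 0) (h2 : dv a γ = 0) (h3 : ev a (-μ) = 0) :
    27 / 256 ≤ (γ ^ 2 * μ) ^ 2 := by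
  have hγ : |γ| < 1 := by rw [abs_of_pos hγ0]; exact hγ1
  have hμ : |-μ| < 1 := by rw [abs_neg, abs_of_pos hμ0]; exact hμ1
  have hne : -μ ≠ γ := by linarith
  have hγ' : γ ≠ 0 := hγ0.ne'
  have hμ' : -μ ≠ 0 := by linarith
  have ba : BdSeq a := ⟨1, ha.abs_le⟩
  have b1 := Tq_bd ba hγ' hγ h1
  have z1 : ev (Tq a γ) γ = 0 := ev_Tq_self ba hγ' hγ h1 h2
  have z1' : ev (Tq a γ) (-μ) = 0 := ev_Tq ba hγ' hγ h1 hμ hne h3
  have b2 := Tq_bd b1 hγ' hγ z1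
  have z2 : ev (Tq (Tq a γ) γ) (-μ) = 0 := ev_Tq b1 hγ' hγ z1 hμ hne z1'
  have b3 := Tq_bd b2 hμ' hμ z2
  have n1 := nq_Tq ba hγ' hγ h1
  have n2 := nq_Tq b1 hγ' hγ z1
  have n3 := nq_Tq b2 hμ' hμ z2
  have hl := one_le_nq b3 ha.1
  have hu := nq_le_four ha
  rw [n3, n2, n1] at hl
  have hc : 0 ≤ (-μ) ^ 2 / (3 / 4) * (γ ^ 2 / (3 / 4) * (γ ^ 2 / (3 / 4))) := by positivity
  have := mul_le_mul_of_nonneg_left hu hc
  have h4 : (1 : ℝ) ≤ (-μ) ^ 2 / (3 / 4) * (γ ^ 2 / (3 / 4) * (γ ^ 2 / (3 / 4))) * 4 := by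
    nlinarith
  have h5 : (-μ) ^ 2 / (3 / 4) * (γ ^ 2 / (3 / 4) * (γ ^ 2 / (3 / 4))) * 4
      = (γ ^ 2 * μ) ^ 2 * (256 / 27) := by ring
  rw [h5] at h4
  linarith

/-- BLOCK 3 (Jensen type inequality, four zeros). -/
theorem jensen4 {a : ℕ → ℝ} (ha : IsB a) {γ μ : ℝ} (hγ0 : 0 < γ) (hγ1 : γ < 1)
    (hμ0 : 0 < μ) (hμ1 : μ < 1)
    (h1 : ev a γ = 0) (h2 : dv a γ = 0) (h3 : ev a (-μ) = 0) (h4 : dv a (-μ) = 0) :
    81 / 1024 ≤ (γ * μ) ^ 4 := by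
  have hγ : |γ| < 1 := by rw [abs_of_pos hγ0]; exact hγ1
  have hμ : |-μ| < 1 := by rw [abs_neg, abs_of_pos hμ0]; exact hμ1
  have hne : -μ ≠ γ := by linarith
  have hγ' : γ ≠ 0 := hγ0.ne'
  have hμ' : -μ ≠ 0 := by linarith
  have ba : BdSeq a := ⟨1, ha.abs_le⟩
  have b1 := Tq_bd ba hγ' hγ h1
  have z1 : ev (Tq a γ) γ = 0 := ev_Tq_self ba hγ' hγ h1 h2
  have z1' : ev (Tq a γ) (-μ) = 0 := ev_Tq ba hγ' hγ h1 hμ hne h3
  have d1' : dv (Tq a γ) (-μ) = 0 := dv_Tq ba hγ' hγ h1 hμ hne h3 h4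
  have b2 := Tq_bd b1 hγ' hγ z1
  have z2 : ev (Tq (Tq a γ) γ) (-μ) = 0 := ev_Tq b1 hγ' hγ z1 hμ hne z1'
  have d2 : dv (Tq (Tq a γ) γ) (-μ) = 0 := dv_Tq b1 hγ' hγ z1 hμ hne z1' d1'
  have b3 := Tq_bd b2 hμ' hμ z2
  have z3 : ev (Tq (Tq (Tq a γ) γ) (-μ)) (-μ) = 0 := ev_Tq_self b2 hμ' hμ z2 d2
  have b4 := Tq_bd b3 hμ' hμ z3
  have n1 := nq_Tq ba hγ' hγ h1
  have n2 := nq_Tq b1 hγ' hγ z1
  have n3 := nq_Tq b2 hμ' hμ z2
  have n4 := nq_Tq b3 hμ' hμ z3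
  have hl := one_le_nq b4 ha.1
  have hu := nq_le_four ha
  rw [n4, n3, n2, n1] at hl
  have hc : 0 ≤ (-μ) ^ 2 / (3 / 4) * ((-μ) ^ 2 / (3 / 4) *
    (γ ^ 2 / (3 / 4) * (γ ^ 2 / (3 / 4)))) := by positivity
  have := mul_le_mul_of_nonneg_left hu hc
  have h5 : (1 : ℝ) ≤ (-μ) ^ 2 / (3 / 4) * ((-μ) ^ 2 / (3 / 4) *
      (γ ^ 2 / (3 / 4) * (γ ^ 2 / (3 / 4)))) * 4 := by
    nlinarith
  have h6 : (-μ) ^ 2 / (3 / 4) * ((-μ) ^ 2 / (3 / 4) *
      (γ ^ 2 / (3 / 4) * (γ ^ 2 / (3 / 4)))) * 4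
      = (γ * μ) ^ 4 * (1024 / 81) := by ring
  rw [h6] at h5
  linarith

end Pool.Agent.Iso
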